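import Pool.Agent.H87.EBK.Stmts2

/-! Board ebs, row VDI (helper86): the valuation of a difference. -/

set_option autoImplicit false

namespace Pool.EBK

theorem vdi_sub {x y : ℚ} (hx : x ≠ 0) (hy : y ≠ 0) (h : v x < v y) : x - y ≠ 0 ∧ v (x - y) = v x := by
  have h0 : x - y ≠ 0 := by
    intro h1
    have h2 : x = y := sub_eq_zero.1 h1
    rw [h2] at h
    exact lt_irrefl _ h
  refine ⟨h0, ?_⟩
  rw [sub_eq_add_neg] at h0 ⊢
  exact padicValRat.add_eq_of_lt h0 hx (neg_ne_zero.2 hy) (by rw [padicValRat.neg]; exact h)

theorem vdi_abs (x : ℚ) : v |x| = v x := by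
  rcases abs_choice x with h | h <;> rw [h]
  exact padicValRat.neg x

theorem vdi (hTVL : TVL) : VDI := by
  intro a b c u w c' u' w' ha hb h1 h2 hca hcb hcc
  obtain ⟨hc0, hu0, hw0, -, -⟩ := id h1
  obtain ⟨hc0', hu0', hw0', -, -⟩ := id h2
  have eu : v u = v c := (hTVL a b c u w ha hb h1).1 hca
  have ew : v w = v c := (hTVL a b c u w ha hb h1).2.2.1 hcb
  have eu' : v u' = v c' := (hTVL a b c' u' w' ha hb h2).1 (by omega)
  have ew' : v w' = v c' := (hTVL a b c' u' w' ha hb h2).2.2.1 (by omega)
  have e1 : v (c * c' * u * u') = 2 * v c + 2 * v c' := by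
    unfold v at *
    rw [padicValRat.mul (by positivity) (by positivity), padicValRat.mul (by positivity) (by positivity),
      padicValRat.mul (by positivity) (by positivity), eu, eu']
    ring
  have e2 : v (a ^ 2 * w * w') = 2 * v a + v c + v c' := by
    unfold v at *
    rw [padicValRat.mul (by positivity) (by positivity), padicValRat.mul (by positivity) (by positivity),
      padicValRat.pow, ew, ew']
    push_cast
    ring
  have e3 : v (c' * w' * u) = 2 * v c' + v c := by
    unfold v at *
    rw [padicValRat.mul (by positivity) (by positivity), padicValRat.mul (by positivity) (by positivity),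
      ew', eu]
    ring
  have e4 : v (c * w * u') = 2 * v c + v c' := by
    unfold v at *
    rw [padicValRat.mul (by positivity) (by positivity), padicValRat.mul (by positivity) (by positivity),
      ew, eu']
    ring
  have hND0 : 0 < ND a c u w c' u' w' := by unfold ND; positivity
  have eND : v (ND a c u w c' u' w') = 2 * v c + 2 * v c' := by
    rw [← e1]
    unfold ND
    have h3 : c * c' * u * u' + a ^ 2 * w * w' ≠ 0 := by positivity
    have h4 : v (c * c' * u * u') < v (a ^ 2 * w * w') := by rw [e1, e2]; omega
    exact padicValRat.add_eq_of_lt h3 (by positivity) (by positivity) h4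
  have h5 : v (c' * w' * u) < v (c * w * u') := by rw [e3, e4]; omega
  have h6 := vdi_sub (x := c' * w' * u) (y := c * w * u') (by positivity) (by positivity) h5
  have hMD0 : MD c u w c' u' w' ≠ 0 := h6.1
  refine ⟨hMD0, ?_⟩
  have eMD : v (MD c u w c' u' w') = 2 * v c' + v c := by
    rw [← e3]
    exact h6.2
  have h7 := padicValRat.div (p := 2) hND0.ne' (abs_ne_zero.2 hMD0)
  change v _ = v _ - v _ at h7
  rw [h7, vdi_abs, eND, eMD]
  ring

end Pool.EBK
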